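import Pool.Agent.H337R2.Cx3

/-!
# Archimedean part of `1, ζ(3), ζ(4)`: nodes, stages and the comparison product
-/

open Polynomial Pool.Agent.H337R2

namespace Pool.Agent.ZF

noncomputable section

/-- the squares of the ordinates of the three nodes (divided by `n`) -/
def hG : ℕ → ℚ
  | 0 => 35 / 1000
  | 1 => 850 / 1000
  | _ => 1900 / 1000

/-- multiplicities (times `N`) -/
def sG : ℕ → ℕ
  | 0 => 11
  | 1 => 17
  | _ => 20

/-- the binary exponents at the stages -/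
def tG : ℕ → ℕ
  | 0 => 0
  | 1 => 76
  | 2 => 105
  | _ => 75

/-- the node polynomial `(X + 1/2)² + h n²` -/
def qG (n : ℕ) (h : ℚ) : ℚ[X] := (X + C (1 / 2)) ^ 2 + C (h * (n : ℚ) ^ 2)

/-- the factors `(c, e)` of the comparison product `∏ (1 + v/c²)^e` -/
def FXG : List (ℚ × ℕ) :=
  [(1/24, 1), (3/24, 1), (5/24, 1), (7/24, 1), (9/24, 1), (11/24, 1), (13/24, 1), (15/24, 1), (17/24, 1), (19/24, 1),
   (21/24, 1), (23/24, 1), (9/8, 3), (11/8, 3), (13/8, 3), (15/8, 3), (9/4, 24), (11/4, 24), (7/2, 72), (9/2, 72),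
   (11/2, 72), (13/2, 72), (15/2, 72), (17/2, 72), (19/2, 72), (21/2, 48), (23/2, 48), (13, 96), (16, 192),
   (22, 384), (38, 1152), (75, 2400), (150, 4800)]

/-- comparison product -/
def FXpG (v : ℝ) : ℝ := (FXG.map fun x => (1 + v / (x.1 : ℝ) ^ 2) ^ x.2).prod

/-- `|R|` on the line `Re t = -1/2`, for
`R(t) = ((7n)!)² / ((2n)!)³ · ∏_{m=1}^{2n} (t+m)³ / ∏_{3n<k≤10n} (t+k)²` -/
def NG (n : ℕ) (y : ℝ) : ℝ :=
  (((7 * n).factorial : ℕ) : ℝ) ^ 2 / (((2 * n).factorial : ℕ) : ℝ) ^ 3 *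
    (∏ m ∈ Finset.Icc 1 (2 * n), ‖zl y + (m : ℂ)‖ ^ 3) / ∏ k ∈ Finset.Icc (3 * n + 1) (10 * n), ‖zl y + (k : ℂ)‖ ^ 2

/-- the exponential rate of `R` at the real point of the line -/
def PhiG : ℝ := 14 * Real.log 7 + 6 * Real.log 3 - 20 * Real.log 10

end

end Pool.Agent.ZF
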