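import Pool.Agent.H383.Z34.GDefs
import Pool.Agent.H337R2.Cx4

/-!
# Comparison of `R` on the line with the product over all half integers
-/

open Polynomial Pool.Agent.H337R2

namespace Pool.Agent.ZF

noncomputable section

namespace G1Aaux

/-- the weights -/
def w (y : ℝ) (m : ℕ) : ℝ := 1 + y ^ 2 / ((m : ℝ) - 1 / 2) ^ 2

lemma w_pos (y : ℝ) (m : ℕ) : 0 < w y m := by unfold w; positivity

lemma norm_w (y : ℝ) (m : ℕ) : ‖zl y + m‖ ^ 2 = ‖zl 0 + m‖ ^ 2 * w y m := by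
  have hm := half_ne m
  rw [zl_add, zl_add, norm_lf, norm_lf, Real.sq_sqrt (by positivity), Real.sq_sqrt (by positivity)]
  unfold w
  have h2 : ((m : ℝ) - 1 / 2) ^ 2 ≠ 0 := pow_ne_zero 2 hm
  rw [zero_pow two_ne_zero, add_zero, mul_add, mul_one, mul_div_cancel₀ _ h2]

lemma prod_w (y : ℝ) (s : Finset ℕ) (b : ℕ) :
    (∏ m ∈ s, ‖zl y + m‖ ^ b) ^ 2 = (∏ m ∈ s, ‖zl 0 + m‖ ^ b) ^ 2 * (∏ m ∈ s, w y m) ^ b := by
  rw [← Finset.prod_pow, ← Finset.prod_pow, ← Finset.prod_pow, ← Finset.prod_mul_distrib]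
  refine Finset.prod_congr rfl fun m _ => ?_
  rw [← pow_mul, mul_comm b 2, pow_mul, norm_w, mul_pow, ← pow_mul, ← pow_mul, mul_comm b 2]

lemma HM_w (y : ℝ) (M : ℕ) : HM y M = ∏ m ∈ Finset.Ioc 0 M, w y m := by
  unfold HM
  refine Finset.prod_nbij' (fun m => m + 1) (fun m => m - 1) ?_ ?_ ?_ ?_ ?_
  · intro m hm; rw [Finset.mem_range] at hm; rw [Finset.mem_Ioc]; omega
  · intro m hm; rw [Finset.mem_Ioc] at hm; rw [Finset.mem_range]; omega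
  · intro m hm; simp
  · intro m hm; rw [Finset.mem_Ioc] at hm; omega
  · intro m _
    unfold w
    push_cast
    have : ((m : ℝ) + 1 - 1 / 2) = m + 1 / 2 := by ring
    rw [this]

end G1Aaux

/-- comparison of `R` on the line with the product over all half integers -/
theorem G1_ratio {n : ℕ} (hn : 1 ≤ n) (y : ℝ) (M : ℕ) (hM : 10 * n ≤ M) :
    (NG n y * Real.exp (-(2 * Real.pi * |y|))) ^ 2 *
      ((∏ m ∈ Finset.Ioc 0 (2 * n), (1 + y ^ 2 / ((m : ℝ) - 1 / 2) ^ 2)) *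
       (∏ m ∈ Finset.Ioc (2 * n) (3 * n), (1 + y ^ 2 / ((m : ℝ) - 1 / 2) ^ 2) ^ 4) *
       (∏ m ∈ Finset.Ioc (3 * n) (10 * n), (1 + y ^ 2 / ((m : ℝ) - 1 / 2) ^ 2) ^ 6) *
       (∏ m ∈ Finset.Ioc (10 * n) M, (1 + y ^ 2 / ((m : ℝ) - 1 / 2) ^ 2) ^ 4)) ≤ NG n 0 ^ 2 := by
  have hw : ∀ m : ℕ, 1 + y ^ 2 / ((m : ℝ) - 1 / 2) ^ 2 = G1Aaux.w y m := fun m => rfl
  simp only [hw, Finset.prod_pow]
  set W1 := ∏ m ∈ Finset.Ioc 0 (2 * n), G1Aaux.w y m with hW1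
  set W2 := ∏ m ∈ Finset.Ioc (2 * n) (3 * n), G1Aaux.w y m with hW2
  set W3 := ∏ m ∈ Finset.Ioc (3 * n) (10 * n), G1Aaux.w y m with hW3
  set W4 := ∏ m ∈ Finset.Ioc (10 * n) M, G1Aaux.w y m with hW4
  have hpos : ∀ s : Finset ℕ, 0 < ∏ m ∈ s, G1Aaux.w y m := fun s =>
    Finset.prod_pos fun m _ => G1Aaux.w_pos y m
  have hHM : HM y M = W1 * W2 * W3 * W4 := by
    rw [G1Aaux.HM_w, hW1, hW2, hW3, hW4,
      Finset.prod_Ioc_consecutive _ (by omega) (by omega),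
      Finset.prod_Ioc_consecutive _ (by omega) (by omega),
      Finset.prod_Ioc_consecutive _ (by omega) (by omega)]
  have hW3p : 0 < W3 := hpos _
  have hW1p : 0 < W1 := hpos _
  have hW2p : 0 < W2 := hpos _
  have hW4p : 0 < W4 := hpos _
  have hE : Real.exp (-(2 * Real.pi * |y|)) ^ 2 * (W1 * W2 * W3 * W4) ^ 4 ≤ 1 := by
    have h1 := HM_le y M
    rw [hHM] at h1
    have h2 : 0 ≤ W1 * W2 * W3 * W4 := by positivity
    have h3 : (W1 * W2 * W3 * W4) ^ 4 ≤ Real.exp (Real.pi * |y|) ^ 4 :=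
      pow_le_pow_left₀ h2 h1 4
    calc Real.exp (-(2 * Real.pi * |y|)) ^ 2 * (W1 * W2 * W3 * W4) ^ 4
        ≤ Real.exp (-(2 * Real.pi * |y|)) ^ 2 * Real.exp (Real.pi * |y|) ^ 4 :=
          mul_le_mul_of_nonneg_left h3 (by positivity)
      _ = 1 := by
          rw [← Real.exp_nat_mul, ← Real.exp_nat_mul, ← Real.exp_add]
          have : ((2 : ℕ) : ℝ) * -(2 * Real.pi * |y|) + ((4 : ℕ) : ℝ) * (Real.pi * |y|) = 0 := by
            push_cast; ring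
          rw [this, Real.exp_zero]
  have e1 : Finset.Icc 1 (2 * n) = Finset.Ioc 0 (2 * n) := by
    ext m; rw [Finset.mem_Icc, Finset.mem_Ioc]; omega
  have e2 : Finset.Icc (3 * n + 1) (10 * n) = Finset.Ioc (3 * n) (10 * n) := by
    ext m; rw [Finset.mem_Icc, Finset.mem_Ioc]; omega
  set c : ℝ := (((7 * n).factorial : ℕ) : ℝ) ^ 2 / (((2 * n).factorial : ℕ) : ℝ) ^ 3 with hc
  set P1 := ∏ m ∈ Finset.Ioc 0 (2 * n), ‖zl 0 + m‖ ^ 3 with hP1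
  set P3 := ∏ m ∈ Finset.Ioc (3 * n) (10 * n), ‖zl 0 + m‖ ^ 2 with hP3
  have hP3pos : 0 < P3 := Finset.prod_pos fun m _ => by
    have := norm_pos_iff.2 (zl_ne 0 m)
    positivity
  have hR0 : NG n 0 ^ 2 = (c * P1) ^ 2 / P3 ^ 2 := by
    unfold NG
    rw [e1, e2, div_pow]
  have hRy : NG n y ^ 2 = (c * P1) ^ 2 / P3 ^ 2 * (W1 ^ 3 / W3 ^ 2) := by
    unfold NG
    rw [e1, e2, div_pow, ← hc, mul_pow, G1Aaux.prod_w y _ 3, G1Aaux.prod_w y _ 2, ← hP1, ← hP3,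
      ← hW1, ← hW3]
    field_simp
  rw [mul_pow, hR0, hRy]
  calc (c * P1) ^ 2 / P3 ^ 2 * (W1 ^ 3 / W3 ^ 2) * Real.exp (-(2 * Real.pi * |y|)) ^ 2 *
        (W1 * W2 ^ 4 * W3 ^ 6 * W4 ^ 4)
      = (c * P1) ^ 2 / P3 ^ 2 *
        (Real.exp (-(2 * Real.pi * |y|)) ^ 2 * (W1 * W2 * W3 * W4) ^ 4) := by
        field_simp
    _ ≤ (c * P1) ^ 2 / P3 ^ 2 * 1 := by
        refine mul_le_mul_of_nonneg_left hE (by positivity)
    _ = _ := by ring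

end

end Pool.Agent.ZF
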