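import Pool.Agent.H383.Z34.GDefs
import Pool.Agent.H337R2.Stir

/-! Task G1Z: the size of `R` at the real point of the line. -/

open Polynomial Pool.Agent.H337R2 Filter Topology

namespace Pool.Agent.ZF

noncomputable section

namespace G1ZAux

lemma norm_zl_zero {m : ℕ} (hm : 1 ≤ m) : ‖zl 0 + (m : ℂ)‖ = (m : ℝ) - 1 / 2 := by
  have hm' : (1 : ℝ) ≤ m := by exact_mod_cast hm
  have h1 : zl 0 + (m : ℂ) = (((m : ℝ) - 1 / 2 : ℝ) : ℂ) := by
    unfold zl
    push_cast
    ring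
  rw [h1, Complex.norm_real, Real.norm_eq_abs, abs_of_nonneg (by linarith)]

lemma prod1 (L : ℕ) : ∏ m ∈ Finset.Icc 1 L, ((m : ℝ) - 1 / 2) ≤ (L.factorial : ℝ) := by
  induction L with
  | zero => simp
  | succ L ih =>
    rw [Finset.prod_Icc_succ_top (by omega), Nat.factorial_succ]
    push_cast
    have h1 : (0 : ℝ) ≤ ∏ m ∈ Finset.Icc 1 L, ((m : ℝ) - 1 / 2) := by
      refine Finset.prod_nonneg fun m hm => ?_
      have : (1 : ℝ) ≤ m := by exact_mod_cast (Finset.mem_Icc.1 hm).1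
      linarith
    have h2 : (0 : ℝ) ≤ (L : ℝ) := by positivity
    have h3 : (0 : ℝ) ≤ (L.factorial : ℝ) := by positivity
    nlinarith

end G1ZAux

open G1ZAux

theorem G1_zero : ∃ (C : ℝ) (K : ℕ), 0 < C ∧ ∀ n : ℕ, 1 ≤ n →
    NG n 0 ≤ C * (n : ℝ) ^ K * Real.exp (n * PhiG) := by
  refine ⟨(27 * Real.exp 1) ^ 2, 2, by positivity, fun n hn => ?_⟩
  have hn1 : (1 : ℝ) ≤ n := by exact_mod_cast hn
  have hn0 : (0 : ℝ) < n := by linarith
  have e1 : ∏ m ∈ Finset.Icc 1 (2 * n), ‖zl 0 + (m : ℂ)‖ ^ 3 =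
      (∏ m ∈ Finset.Icc 1 (2 * n), ((m : ℝ) - 1 / 2)) ^ 3 := by
    rw [← Finset.prod_pow]
    exact Finset.prod_congr rfl fun m hm => by rw [norm_zl_zero (Finset.mem_Icc.1 hm).1]
  have e2 : ∏ k ∈ Finset.Icc (3 * n + 1) (10 * n), ‖zl 0 + (k : ℂ)‖ ^ 2 =
      (∏ k ∈ Finset.Icc (3 * n + 1) (10 * n), ((k : ℝ) - 1 / 2)) ^ 2 := by
    rw [← Finset.prod_pow]
    exact Finset.prod_congr rfl fun m hm => by
      rw [norm_zl_zero (by have := (Finset.mem_Icc.1 hm).1; omega)]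
  unfold NG
  rw [e1, e2]
  set B : ℝ := ∏ m ∈ Finset.Icc 1 (2 * n), ((m : ℝ) - 1 / 2) with hB
  set Q : ℝ := ∏ k ∈ Finset.Icc (3 * n + 1) (10 * n), ((k : ℝ) - 1 / 2) with hQ
  have hB0 : 0 ≤ B := by
    refine Finset.prod_nonneg fun m hm => ?_
    have : (1 : ℝ) ≤ m := by exact_mod_cast (Finset.mem_Icc.1 hm).1
    linarith
  have hBle : B ≤ ((2 * n).factorial : ℝ) := prod1 (2 * n)
  have hQ0 : 0 < Q := by
    refine Finset.prod_pos fun m hm => ?_
    have : ((3 * n + 1 : ℕ) : ℝ) ≤ m := by exact_mod_cast (Finset.mem_Icc.1 hm).1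
    push_cast at this
    linarith
  have hQlow : ∏ k ∈ Finset.Icc (3 * n) (10 * n), (k : ℝ) ≤ Q * (10 * n) := by
    have h3 : ∏ k ∈ Finset.Icc (3 * n) (10 * n), (k : ℝ) =
        (∏ k ∈ Finset.Icc (3 * n + 1) (10 * n), ((k : ℝ) - 1)) * (10 * n) := by
      have h4 : Finset.Icc (3 * n) (10 * n) = insert (10 * n) (Finset.Ico (3 * n) (10 * n)) := by
        ext k; rw [Finset.mem_insert, Finset.mem_Icc, Finset.mem_Ico]; omega
      rw [h4, Finset.prod_insert (by rw [Finset.mem_Ico]; omega), mul_comm]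
      push_cast
      congr 1
      apply Finset.prod_bij (fun k _ => k + 1)
      · intro k hk; rw [Finset.mem_Ico] at hk; rw [Finset.mem_Icc]; omega
      · intro a _ b _ h; omega
      · intro k hk; rw [Finset.mem_Icc] at hk
        exact ⟨k - 1, by rw [Finset.mem_Ico]; omega, by omega⟩
      · intro k _; push_cast; ring
    rw [h3]
    apply mul_le_mul_of_nonneg_right _ (by positivity)
    apply Finset.prod_le_prod
    · intro m hm
      have : ((3 * n + 1 : ℕ) : ℝ) ≤ m := by exact_mod_cast (Finset.mem_Icc.1 hm).1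
      push_cast at this
      linarith
    · intro m _
      linarith
  have hkey : ((7 * n).factorial : ℝ) / Q ≤
      27 * Real.exp 1 * n * Real.exp (xl (7 * n) + xl (3 * n) - xl (10 * n)) := by
    have h1 := L3 (3 * n) (7 * n) (by omega)
    rw [show 3 * n + 7 * n = 10 * n by ring] at h1
    rw [Finset.prod_inv_distrib] at h1
    have hP0 : 0 < ∏ k ∈ Finset.Icc (3 * n) (10 * n), (k : ℝ) := by
      refine Finset.prod_pos fun m hm => ?_
      have : ((3 * n : ℕ) : ℝ) ≤ m := by exact_mod_cast (Finset.mem_Icc.1 hm).1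
      push_cast at this
      linarith
    push_cast at h1
    rw [show 3 * (n : ℝ) + 7 * n = 10 * n by ring] at h1
    have h2 : ((7 * n).factorial : ℝ) / Q ≤
        (10 * n) * (((7 * n).factorial : ℝ) * (∏ k ∈ Finset.Icc (3 * n) (10 * n), (k : ℝ))⁻¹) := by
      rw [div_le_iff₀ hQ0]
      have h5 : (1 : ℝ) ≤ Q * (10 * n) * (∏ k ∈ Finset.Icc (3 * n) (10 * n), (k : ℝ))⁻¹ := by
        rw [← div_eq_mul_inv, le_div_iff₀ hP0, one_mul]
        exact hQlow
      have h6 : (0 : ℝ) ≤ ((7 * n).factorial : ℝ) := by positivity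
      calc ((7 * n).factorial : ℝ) = ((7 * n).factorial : ℝ) * 1 := (mul_one _).symm
        _ ≤ ((7 * n).factorial : ℝ) *
            (Q * (10 * n) * (∏ k ∈ Finset.Icc (3 * n) (10 * n), (k : ℝ))⁻¹) := by gcongr
        _ = _ := by ring
    refine h2.trans ?_
    calc (10 * n : ℝ) * (((7 * n).factorial : ℝ) * (∏ k ∈ Finset.Icc (3 * n) (10 * n), (k : ℝ))⁻¹)
        ≤ (10 * n) * (Real.exp 1 * (7 * n + 1) / (3 * n) *
          Real.exp (xl (7 * n) + xl (3 * n) - xl (10 * n))) := by gcongr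
      _ = (10 / 3 * Real.exp 1 * (7 * n + 1)) *
          Real.exp (xl (7 * n) + xl (3 * n) - xl (10 * n)) := by
          field_simp
      _ ≤ _ := by
          apply mul_le_mul_of_nonneg_right _ (Real.exp_pos _).le
          have := Real.exp_pos 1
          nlinarith
  have hfac : (0 : ℝ) < ((2 * n).factorial : ℝ) := by positivity
  have h8 : ((7 * n).factorial : ℝ) ^ 2 / ((2 * n).factorial : ℝ) ^ 3 * B ^ 3 / Q ^ 2 ≤
      (((7 * n).factorial : ℝ) / Q) ^ 2 := by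
    calc ((7 * n).factorial : ℝ) ^ 2 / ((2 * n).factorial : ℝ) ^ 3 * B ^ 3 / Q ^ 2
        ≤ ((7 * n).factorial : ℝ) ^ 2 / ((2 * n).factorial : ℝ) ^ 3 *
          ((2 * n).factorial : ℝ) ^ 3 / Q ^ 2 := by gcongr
      _ = _ := by field_simp
  refine h8.trans ?_
  have h9 : (((7 * n).factorial : ℝ) / Q) ^ 2 ≤
      (27 * Real.exp 1 * n * Real.exp (xl (7 * n) + xl (3 * n) - xl (10 * n))) ^ 2 := by
    gcongr
  refine h9.trans (le_of_eq ?_)
  have hexp : Real.exp (xl (7 * n) + xl (3 * n) - xl (10 * n)) ^ 2 = Real.exp (n * PhiG) := by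
    rw [← Real.exp_nat_mul]
    congr 1
    have hs : ∀ a : ℝ, 0 ≤ a → xl (a * n) = n * xl a + n * a * Real.log n := by
      intro a ha
      rw [mul_comm a]
      exact xl_scale hn0 ha
    rw [hs 7 (by norm_num), hs 3 (by norm_num), hs 10 (by norm_num)]
    unfold xl PhiG
    push_cast
    ring
  rw [mul_pow, mul_pow, hexp]

end

end Pool.Agent.ZF
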