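import Pool.Agent.H383.Z34.G1M
import Pool.Agent.H383.Z34.G1A
import Pool.Agent.H383.Z34.G1Z

/-! The archimedean comparison `G1_main` for `1, ζ(3), ζ(4)`. -/

open Polynomial Pool.Agent.H337R2

namespace Pool.Agent.ZF

theorem G1_main : ∃ (C : ℝ) (K : ℕ), 0 < C ∧ ∀ N : ℕ, 1 ≤ N → ∀ n : ℕ, n = 24 * N + 1 → ∀ y : ℝ,
    NG n y * Real.exp (-(2 * Real.pi * |y|)) * (1 + y ^ 2) ^ 5 * FXpG ((y / n) ^ 2) ^ N ≤
      C * (n : ℝ) ^ K * Real.exp (n * PhiG) :=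
  G1_main_of G1_zero G1_ratio

end Pool.Agent.ZF
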