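import Pool.Agent.H383.Z34.GDefs
import Pool.Agent.H383.Z34.G3
import Pool.Agent.H336R2.HD.A1
import Pool.Agent.H336R2.HD.A3

/-!
# G4: the determinant bound for an arbitrary functional (helper227)

Adaptation of `Pool/Agent/H336R2/HD/G4.lean`.
-/

open Polynomial Pool.Agent.H337R2 Filter Topology

namespace Pool.Agent.ZF

noncomputable section

namespace G4

/-- the linear polynomial `x + 1/2` -/
def Lin : ℚ[X] := X + C (1 / 2)

/-- the node polynomials -/
def QB (n b : ℕ) : ℚ[X] := qG n (hG b)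

lemma Lin_monic : Lin.Monic := monic_X_add_C _

lemma Lin_deg : Lin.natDegree = 1 := natDegree_X_add_C _

lemma qG_aux (n : ℕ) (h : ℚ) : (qG n h).Monic ∧ (qG n h).natDegree = 2 := by
  have h1 : (Lin ^ 2).Monic := Lin_monic.pow 2
  have h2 : (Lin ^ 2).natDegree = 2 := by rw [Lin_monic.natDegree_pow, Lin_deg]
  have h3 : (C (h * (n : ℚ) ^ 2) : ℚ[X]).natDegree < (Lin ^ 2).natDegree := by
    rw [h2, natDegree_C]; norm_num
  have e : qG n h = Lin ^ 2 + C (h * (n : ℚ) ^ 2) := rfl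
  rw [e]
  refine ⟨h1.add_of_left (degree_lt_degree h3), ?_⟩
  rw [natDegree_add_eq_left_of_natDegree_lt h3, h2]

lemma QB_monic (n b : ℕ) : (QB n b).Monic := (qG_aux _ _).1

lemma QB_deg (n b : ℕ) : (QB n b).natDegree = 2 := (qG_aux _ _).2

/-- half the offsets -/
def ho (b : ℕ) : ℕ := ∑ i ∈ Finset.range b, sG i

/-- the monic polynomials -/
def PA (n N b j : ℕ) : ℚ[X] :=
  (∏ i ∈ Finset.range b, QB n i ^ (sG i * N)) *
    (if b = 3 then Lin ^ j else QB n b ^ (j / 2) * Lin ^ (j % 2))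

lemma PA_monic (n N b j : ℕ) : (PA n N b j).Monic := by
  unfold PA
  refine (monic_prod_of_monic _ _ fun i _ => (QB_monic n i).pow _).mul ?_
  split_ifs
  · exact Lin_monic.pow _
  · exact ((QB_monic n b).pow _).mul (Lin_monic.pow _)

lemma PA_deg (n N b j : ℕ) : (PA n N b j).natDegree = 2 * (ho b * N) + j := by
  unfold PA
  have h1 : (∏ i ∈ Finset.range b, QB n i ^ (sG i * N)).Monic :=
    monic_prod_of_monic _ _ fun i _ => (QB_monic n i).pow _
  have h4 : ∀ i ∈ Finset.range b, (QB n i ^ (sG i * N)).natDegree = sG i * (2 * N) := by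
    intro i _
    rw [(QB_monic n i).natDegree_pow, QB_deg]; ring
  have h5 : (∏ i ∈ Finset.range b, QB n i ^ (sG i * N)).natDegree = 2 * (ho b * N) := by
    rw [natDegree_prod_of_monic _ _ fun i _ => (QB_monic n i).pow _, Finset.sum_congr rfl h4,
      ← Finset.sum_mul]
    unfold ho
    ring
  split_ifs with hb
  · rw [h1.natDegree_mul (Lin_monic.pow _), h5, Lin_monic.natDegree_pow, Lin_deg, mul_one]
  · have h2 : (QB n b ^ (j / 2)).Monic := (QB_monic n b).pow _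
    have h3 : (Lin ^ (j % 2)).Monic := Lin_monic.pow _
    rw [h1.natDegree_mul (h2.mul h3), h2.natDegree_mul h3, h5, (QB_monic n b).natDegree_pow,
      Lin_monic.natDegree_pow, QB_deg, Lin_deg]
    have : j / 2 * 2 + j % 2 * 1 = j := by omega
    rw [this]

/-- position of an index -/
def loc (N i : ℕ) : ℕ × ℕ :=
  if i < 22 * N then (0, i) else if i < 56 * N then (1, i - 22 * N) else
    if i < 96 * N then (2, i - 56 * N) else (3, i - 96 * N)

lemma ho0 : ho 0 = 0 := by decide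
lemma ho1 : ho 1 = 11 := by decide
lemma ho2 : ho 2 = 28 := by decide
lemma ho3 : ho 3 = 48 := by decide

lemma loc_spec {N i : ℕ} (hi : i < 96 * N + 4) :
    (2 * (ho (loc N i).1 * N) + (loc N i).2 = i) ∧
      (((loc N i).1 ≤ 2 ∧ (loc N i).2 < 2 * (sG (loc N i).1 * N)) ∨
        ((loc N i).1 = 3 ∧ (loc N i).2 < 4)) := by
  unfold loc
  split_ifs with h1 h2 h3
  · refine ⟨?_, Or.inl ⟨by omega, ?_⟩⟩
    · simp only [ho0]; omega
    · show i < 2 * (11 * N); omega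
  · refine ⟨?_, Or.inl ⟨by omega, ?_⟩⟩
    · simp only [ho1]; omega
    · show i - 22 * N < 2 * (17 * N); omega
  · refine ⟨?_, Or.inl ⟨by omega, ?_⟩⟩
    · simp only [ho2]; omega
    · show i - 56 * N < 2 * (20 * N); omega
  · refine ⟨?_, Or.inr ⟨rfl, ?_⟩⟩
    · simp only [ho3]; omega
    · show i - 96 * N < 4; omega

lemma sum_loc (N : ℕ) (f : ℕ → ℕ → ℝ) :
    ∑ i ∈ Finset.range (96 * N + 4), f (loc N i).1 (loc N i).2 =
      (∑ b ∈ Finset.range 3, ∑ j ∈ Finset.range (2 * (sG b * N)), f b j) +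
        ∑ j ∈ Finset.range 4, f 3 j := by
  have e : 96 * N + 4 = 22 * N + 34 * N + 40 * N + 4 := by ring
  rw [e, Finset.sum_range_add, Finset.sum_range_add, Finset.sum_range_add]
  have s0 : 2 * (sG 0 * N) = 22 * N := by show 2 * (11 * N) = 22 * N; ring
  have s1 : 2 * (sG 1 * N) = 34 * N := by show 2 * (17 * N) = 34 * N; ring
  have s2 : 2 * (sG 2 * N) = 40 * N := by show 2 * (20 * N) = 40 * N; ring
  rw [Finset.sum_range_succ (fun b => ∑ j ∈ Finset.range (2 * (sG b * N)), f b j) 2,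
    Finset.sum_range_succ (fun b => ∑ j ∈ Finset.range (2 * (sG b * N)), f b j) 1,
    Finset.sum_range_one, s0, s1, s2]
  congr 1
  · congr 1
    · congr 1
      · apply Finset.sum_congr rfl
        intro i hi
        rw [Finset.mem_range] at hi
        unfold loc
        rw [if_pos hi]
      · apply Finset.sum_congr rfl
        intro i hi
        rw [Finset.mem_range] at hi
        unfold loc
        rw [if_neg (by omega), if_pos (by omega), Nat.add_sub_cancel_left]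
    · apply Finset.sum_congr rfl
      intro i hi
      rw [Finset.mem_range] at hi
      unfold loc
      rw [if_neg (by omega), if_neg (by omega), if_pos (by omega)]
      congr 1
      show 22 * N + 34 * N + i - 56 * N = i
      omega
  · apply Finset.sum_congr rfl
    intro i hi
    rw [Finset.mem_range] at hi
    unfold loc
    rw [if_neg (by omega), if_neg (by omega), if_neg (by omega)]
    congr 1
    show 22 * N + 34 * N + 40 * N + i - 96 * N = i
    omega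

/-- the weight -/
def WW (n : ℕ) (y : ℝ) : ℝ :=
  NG n y * Real.exp (-(2 * Real.pi * |y|)) * (1 + y ^ 2) ^ 5

lemma NG_nonneg (n : ℕ) (y : ℝ) : 0 ≤ NG n y := by unfold NG; positivity

lemma WW_nonneg (n : ℕ) (y : ℝ) : 0 ≤ WW n y := by
  unfold WW
  have := NG_nonneg n y
  positivity

lemma ho_succ (b : ℕ) : ho (b + 1) = ho b + sG b := by
  unfold ho; rw [Finset.sum_range_succ]

/-- product of the full blocks -/
def FB (n N b : ℕ) (y : ℝ) : ℝ :=
  ∏ i ∈ Finset.range b, (‖aeval (zl y) (QB n i)‖ ^ 2) ^ (sG i * N)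

lemma FB_nonneg (n N b : ℕ) (y : ℝ) : 0 ≤ FB n N b y := by unfold FB; positivity

lemma FB_succ (n N b : ℕ) (y : ℝ) :
    FB n N (b + 1) y = FB n N b y * (‖aeval (zl y) (QB n b)‖ ^ 2) ^ (sG b * N) := by
  unfold FB; rw [Finset.prod_range_succ]

lemma Lin_eval (y : ℝ) : aeval (zl y) Lin = (y : ℂ) * Complex.I := by
  unfold Lin zl
  simp only [map_add, aeval_X, aeval_C, eq_ratCast]
  push_cast
  ring

lemma Lin_norm (y : ℝ) : ‖aeval (zl y) Lin‖ ^ 2 = y ^ 2 := by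
  rw [Lin_eval, norm_mul, Complex.norm_I, mul_one, Complex.norm_real, Real.norm_eq_abs, sq_abs]

lemma qG_norm {n : ℕ} (hn : 1 ≤ n) (y : ℝ) (h : ℚ) :
    ‖aeval (zl y) (qG n h)‖ = (n : ℝ) ^ 2 * |(h : ℝ) - (y / n) ^ 2| := by
  have hn' : (n : ℝ) ≠ 0 := by exact_mod_cast (by omega : n ≠ 0)
  have e : aeval (zl y) (qG n h) = (((n : ℝ) ^ 2 * ((h : ℝ) - (y / n) ^ 2) : ℝ) : ℂ) := by
    have e1 : qG n h = Lin ^ 2 + C (h * (n : ℚ) ^ 2) := rfl
    rw [e1, map_add, map_pow, Lin_eval, aeval_C, mul_pow, Complex.I_sq]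
    have e2 : (n : ℝ) ^ 2 * ((h : ℝ) - (y / n) ^ 2) = (h : ℝ) * (n : ℝ) ^ 2 - y ^ 2 := by
      field_simp
    rw [e2, eq_ratCast]
    push_cast
    ring
  rw [e, Complex.norm_real, Real.norm_eq_abs, abs_mul, abs_of_nonneg (by positivity)]

lemma FB_le {n : ℕ} (hn : 1 ≤ n) (N b : ℕ) (hb : b ≤ 3) (y : ℝ) :
    FB n N b y * 2 ^ (tG b * N) ≤ (n : ℝ) ^ (4 * (ho b * N)) * FXpG ((y / n) ^ 2) ^ N := by
  have hv : 0 ≤ (y / n) ^ 2 := by positivity
  have h2 : FB n N b y = (n : ℝ) ^ (4 * (ho b * N)) *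
        (∏ i ∈ Finset.range b, |((hG i : ℚ) : ℝ) - (y / n) ^ 2| ^ (2 * sG i)) ^ N := by
    unfold FB
    have : ∀ i ∈ Finset.range b, (‖aeval (zl y) (QB n i)‖ ^ 2) ^ (sG i * N) =
        ((n : ℝ) ^ (4 * N)) ^ sG i * (|((hG i : ℚ) : ℝ) - (y / n) ^ 2| ^ (2 * sG i)) ^ N := by
      intro i _
      unfold QB
      rw [qG_norm hn, mul_pow, mul_pow, ← pow_mul, ← pow_mul, ← pow_mul, ← pow_mul, ← pow_mul]
      congr 2
      · ring
      · ring
    rw [Finset.prod_congr rfl this, Finset.prod_mul_distrib, Finset.prod_pow,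
      Finset.prod_pow_eq_pow_sum, ← pow_mul]
    unfold ho
    congr 2
    ring
  have hG : 0 ≤ ∏ i ∈ Finset.range b, |((hG i : ℚ) : ℝ) - (y / n) ^ 2| ^ (2 * sG i) :=
    Finset.prod_nonneg fun i _ => by positivity
  have h3 := G3_cert b hb ((y / n) ^ 2) hv
  have h4 := pow_le_pow_left₀ (by positivity) h3 N
  rw [mul_pow, ← pow_mul] at h4
  rw [h2]
  calc (n : ℝ) ^ (4 * (ho b * N)) *
        (∏ i ∈ Finset.range b, |((Pool.Agent.ZF.hG i : ℚ) : ℝ) - (y / n) ^ 2| ^ (2 * sG i)) ^ N *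
        2 ^ (tG b * N)
      = (n : ℝ) ^ (4 * (ho b * N)) * (2 ^ (tG b * N) *
        (∏ i ∈ Finset.range b, |((Pool.Agent.ZF.hG i : ℚ) : ℝ) - (y / n) ^ 2| ^ (2 * sG i)) ^ N) := by
        ring
    _ ≤ _ := mul_le_mul_of_nonneg_left h4 (by positivity)

/-- logarithm of the corner bound -/
def la (C : ℝ) (K n N b : ℕ) : ℝ :=
  Real.log C + K * Real.log n + n * PhiG + 4 * (ho b * N) * Real.log n - tG b * N * Real.log 2

/-- the estimate of `G1_main` -/
def Hyp (C : ℝ) (K : ℕ) : Prop := ∀ N : ℕ, 1 ≤ N → ∀ n : ℕ, n = 24 * N + 1 → ∀ y : ℝ,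
    NG n y * Real.exp (-(2 * Real.pi * |y|)) * (1 + y ^ 2) ^ 5 * FXpG ((y / n) ^ 2) ^ N ≤
      C * (n : ℝ) ^ K * Real.exp (n * PhiG)

lemma corner {C : ℝ} {K : ℕ} (hC : 0 < C) (h : Hyp C K) {n N : ℕ} (hN : 1 ≤ N) (hn : n = 24 * N + 1)
    {b : ℕ} (hb : b ≤ 3) (y : ℝ) :
    WW n y * FB n N b y ≤ Real.exp (la C K n N b) := by
  have h0 : (0 : ℝ) < n := by exact_mod_cast (by omega : 0 < n)
  have h1 := h N hN n hn y
  have h2 := FB_le (n := n) (by omega) N b hb y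
  have e : Real.exp (la C K n N b) * 2 ^ (tG b * N) =
      (C * (n : ℝ) ^ K * Real.exp (n * PhiG)) * (n : ℝ) ^ (4 * (ho b * N)) := by
    unfold la
    rw [Real.exp_sub, Real.exp_add, Real.exp_add, Real.exp_add, Real.exp_log hC]
    have e1 : Real.exp (K * Real.log n) = (n : ℝ) ^ K := by
      rw [Real.exp_nat_mul, Real.exp_log h0]
    have e2 : Real.exp (4 * (ho b * N) * Real.log n) = (n : ℝ) ^ (4 * (ho b * N)) := by
      have : (4 * (ho b * N) * Real.log n : ℝ) = ((4 * (ho b * N) : ℕ) : ℝ) * Real.log n := by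
        push_cast; ring
      rw [this, Real.exp_nat_mul, Real.exp_log h0]
    have e3 : Real.exp (tG b * N * Real.log 2) = (2 : ℝ) ^ (tG b * N) := by
      have : (tG b * N * Real.log 2 : ℝ) = ((tG b * N : ℕ) : ℝ) * Real.log 2 := by
        push_cast; ring
      rw [this, Real.exp_nat_mul, Real.exp_log (by norm_num)]
    rw [e1, e2, e3]
    field_simp
  have hpos : (0 : ℝ) < 2 ^ (tG b * N) := by positivity
  refine le_of_mul_le_mul_right ?_ hpos
  rw [e]
  calc WW n y * FB n N b y * 2 ^ (tG b * N) = WW n y * (FB n N b y * 2 ^ (tG b * N)) := by ring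
    _ ≤ WW n y * ((n : ℝ) ^ (4 * (ho b * N)) * FXpG ((y / n) ^ 2) ^ N) :=
        mul_le_mul_of_nonneg_left h2 (WW_nonneg n y)
    _ = (WW n y * FXpG ((y / n) ^ 2) ^ N) * (n : ℝ) ^ (4 * (ho b * N)) := by ring
    _ ≤ _ := mul_le_mul_of_nonneg_right h1 (by positivity)

lemma interp {a q a0 b0 : ℝ} (ha : 0 ≤ a) (hq : 0 ≤ q) {S k : ℕ} (hS : 0 < S) (hk : k ≤ S)
    (h1 : a ≤ Real.exp a0) (h2 : a * q ^ S ≤ Real.exp b0) :
    a * q ^ k ≤ Real.exp ((1 - (k : ℝ) / S) * a0 + (k : ℝ) / S * b0) := by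
  have hS' : (S : ℝ) ≠ 0 := by exact_mod_cast hS.ne'
  apply le_of_pow_le_pow_left₀ hS.ne' (Real.exp_pos _).le
  have e1 : Real.exp ((1 - (k : ℝ) / S) * a0 + (k : ℝ) / S * b0) ^ S =
      Real.exp a0 ^ (S - k) * Real.exp b0 ^ k := by
    rw [← Real.exp_nat_mul, ← Real.exp_nat_mul, ← Real.exp_nat_mul, ← Real.exp_add]
    congr 1
    rw [Nat.cast_sub hk]
    field_simp
  have e2 : (a * q ^ k) ^ S = a ^ (S - k) * (a * q ^ S) ^ k := by
    rw [mul_pow, mul_pow, ← pow_mul, ← pow_mul, ← mul_assoc, ← pow_add, Nat.sub_add_cancel hk,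
      mul_comm k S]
  rw [e1, e2]
  have h3 : a ^ (S - k) ≤ Real.exp a0 ^ (S - k) := pow_le_pow_left₀ ha h1 _
  have h4 : (a * q ^ S) ^ k ≤ Real.exp b0 ^ k := pow_le_pow_left₀ (by positivity) h2 _
  exact mul_le_mul h3 h4 (by positivity) (by positivity)

/-- the exponent of the bound -/
def al (C : ℝ) (K n N b j : ℕ) : ℝ :=
  if b = 3 then la C K n N 3 else
    (1 - ((j / 2 : ℕ) : ℝ) / ((sG b * N : ℕ) : ℝ)) * la C K n N b +
      ((j / 2 : ℕ) : ℝ) / ((sG b * N : ℕ) : ℝ) * la C K n N (b + 1)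

lemma PA_norm (n N b j : ℕ) (hb : b ≠ 3) (y : ℝ) :
    ‖aeval (zl y) (PA n N b j)‖ ^ 2 =
      FB n N b y * (‖aeval (zl y) (QB n b)‖ ^ 2) ^ (j / 2) * (y ^ 2) ^ (j % 2) := by
  unfold PA FB
  rw [if_neg hb, ← Lin_norm y, map_mul, map_mul, map_prod, norm_mul, norm_mul, norm_prod, mul_pow,
    mul_pow, ← Finset.prod_pow, mul_assoc]
  congr 1
  · apply Finset.prod_congr rfl
    intro i _
    rw [map_pow, norm_pow, ← pow_mul, ← pow_mul, mul_comm]
  · congr 1
    · rw [map_pow, norm_pow, ← pow_mul, ← pow_mul, mul_comm]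
    · rw [map_pow, norm_pow, ← pow_mul, ← pow_mul, mul_comm]

lemma PA_norm3 (n N j : ℕ) (y : ℝ) :
    ‖aeval (zl y) (PA n N 3 j)‖ ^ 2 = FB n N 3 y * (y ^ 2) ^ j := by
  unfold PA FB
  rw [if_pos rfl, ← Lin_norm y, map_mul, map_prod, norm_mul, norm_prod, mul_pow, ← Finset.prod_pow]
  congr 1
  · apply Finset.prod_congr rfl
    intro i _
    rw [map_pow, norm_pow, ← pow_mul, ← pow_mul, mul_comm]
  · rw [map_pow, norm_pow, ← pow_mul, ← pow_mul, mul_comm]

lemma sG_pos (b : ℕ) : 0 < sG b := by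
  unfold sG
  split <;> norm_num

/-- the condition on the position -/
def Pos (N b j : ℕ) : Prop := (b ≤ 2 ∧ j < 2 * (sG b * N)) ∨ (b = 3 ∧ j < 4)

lemma ypow {y : ℝ} {k : ℕ} (hk : k ≤ 3) : (1 + y ^ 2) * (y ^ 2) ^ k ≤ (1 + y ^ 2) ^ 5 := by
  have h9 : (1 : ℝ) ≤ 1 + y ^ 2 := by nlinarith [sq_nonneg y]
  have h10 : (y ^ 2) ^ k ≤ (1 + y ^ 2) ^ k := pow_le_pow_left₀ (sq_nonneg y) (by linarith) k
  calc (1 + y ^ 2) * (y ^ 2) ^ k ≤ (1 + y ^ 2) * (1 + y ^ 2) ^ k :=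
        mul_le_mul_of_nonneg_left h10 (by positivity)
    _ = (1 + y ^ 2) ^ (k + 1) := by ring
    _ ≤ (1 + y ^ 2) ^ 5 := pow_le_pow_right₀ h9 (by omega)

lemma PA_bound {C : ℝ} {K : ℕ} (hC : 0 < C) (h : Hyp C K) {n N : ℕ} (hN : 1 ≤ N)
    (hn : n = 24 * N + 1) {b j : ℕ} (hp : Pos N b j) (y : ℝ) :
    NG n y * Real.exp (-(2 * Real.pi * |y|)) * (1 + y ^ 2) *
      ‖aeval (zl y) (PA n N b j)‖ ^ 2 ≤ Real.exp (al C K n N b j) := by
  set T := NG n y * Real.exp (-(2 * Real.pi * |y|)) with hT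
  have hT0 : 0 ≤ T := mul_nonneg (NG_nonneg n y) (Real.exp_pos _).le
  have hWW : WW n y = T * (1 + y ^ 2) ^ 5 := rfl
  set F := FB n N b y with hF
  have hF0 : 0 ≤ F := FB_nonneg n N b y
  rcases hp with ⟨hb, hj⟩ | ⟨rfl, hj⟩
  · have hb3 : b ≠ 3 := by omega
    have hk : j / 2 ≤ sG b * N := by omega
    have hS : 0 < sG b * N := Nat.mul_pos (sG_pos b) hN
    have c1 := corner hC h hN hn (b := b) (by omega) y
    have c2 := corner hC h hN hn (b := b + 1) (by omega) y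
    rw [FB_succ, ← mul_assoc] at c2
    have h3 := interp (mul_nonneg (WW_nonneg n y) (FB_nonneg n N b y))
      (sq_nonneg ‖aeval (zl y) (QB n b)‖) hS hk c1 c2
    rw [PA_norm _ _ _ _ hb3, ← hF]
    unfold al
    rw [if_neg hb3]
    refine le_trans ?_ h3
    rw [← hF]
    set G := (‖aeval (zl y) (QB n b)‖ ^ 2) ^ (j / 2) with hG
    have hG0 : 0 ≤ G := by rw [hG]; positivity
    calc T * (1 + y ^ 2) * (F * G * (y ^ 2) ^ (j % 2))
        = T * ((1 + y ^ 2) * (y ^ 2) ^ (j % 2)) * F * G := by ring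
      _ ≤ T * (1 + y ^ 2) ^ 5 * F * G := by
          apply mul_le_mul_of_nonneg_right _ hG0
          apply mul_le_mul_of_nonneg_right _ hF0
          exact mul_le_mul_of_nonneg_left (ypow (by omega)) hT0
      _ = WW n y * F * G := by rw [hWW]
  · have c1 := corner hC h hN hn (b := 3) (by omega) y
    rw [PA_norm3, ← hF]
    unfold al
    rw [if_pos rfl]
    refine le_trans ?_ c1
    calc T * (1 + y ^ 2) * (F * (y ^ 2) ^ j)
        = T * ((1 + y ^ 2) * (y ^ 2) ^ j) * F := by ring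
      _ ≤ T * (1 + y ^ 2) ^ 5 * F := by
          apply mul_le_mul_of_nonneg_right _ hF0
          exact mul_le_mul_of_nonneg_left (ypow (by omega)) hT0
      _ = WW n y * F := by rw [hWW]

/-- sum of the interpolation exponents of one block -/
lemma sum_half (S : ℕ) (f : ℕ → ℝ) :
    ∑ j ∈ Finset.range (2 * S), f (j / 2) = 2 * ∑ k ∈ Finset.range S, f k := by
  induction S with
  | zero => simp
  | succ S ih =>
    rw [show 2 * (S + 1) = 2 * S + 1 + 1 by ring, Finset.sum_range_succ, Finset.sum_range_succ, ih,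
      Finset.sum_range_succ]
    have e1 : 2 * S / 2 = S := by omega
    have e2 : (2 * S + 1) / 2 = S := by omega
    rw [e1, e2]
    ring

lemma sum_k (S : ℕ) : 2 * ∑ k ∈ Finset.range S, (k : ℝ) = (S : ℝ) * (S - 1) := by
  induction S with
  | zero => simp
  | succ S ih =>
    rw [Finset.sum_range_succ, mul_add, ih]
    push_cast
    ring

lemma tau_block (S : ℕ) (hS : 0 < S) (t t' : ℝ) :
    ∑ j ∈ Finset.range (2 * S), (t + ((j / 2 : ℕ) : ℝ) / (S : ℝ) * (t' - t)) =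
      S * (t + t') - (t' - t) := by
  have hS' : (0 : ℝ) < S := by exact_mod_cast hS
  rw [sum_half S (fun k => t + (k : ℝ) / S * (t' - t)), Finset.sum_add_distrib, Finset.sum_const,
    Finset.card_range, nsmul_eq_mul, ← Finset.sum_mul, ← Finset.sum_div, mul_add]
  have e : 2 * ((∑ k ∈ Finset.range S, (k : ℝ)) / S * (t' - t)) = (S - 1) * (t' - t) := by
    have := sum_k S
    have e1 : 2 * ((∑ k ∈ Finset.range S, (k : ℝ)) / S * (t' - t)) =
        (2 * ∑ k ∈ Finset.range S, (k : ℝ)) / S * (t' - t) := by ring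
    rw [e1, this]
    field_simp
  rw [e]
  ring

/-- the part of the exponent with `log 2` -/
def ta (N b j : ℕ) : ℝ := if b = 3 then 0 else
  N * Real.log 2 * ((tG b : ℝ) + ((j / 2 : ℕ) : ℝ) / ((sG b * N : ℕ) : ℝ) * ((tG (b + 1) : ℝ) - tG b))

lemma al_le {C : ℝ} {K n N b j i : ℕ} (hN : 1 ≤ N) (hp : Pos N b j)
    (hi : 2 * (ho b * N) + j = i) :
    al C K n N b j ≤ Real.log C + K * Real.log n + n * PhiG + 2 * (i : ℝ) * Real.log n -
      ta N b j := by
  have hl : 0 ≤ Real.log n := Real.log_natCast_nonneg n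
  have hl2 : 0 ≤ Real.log 2 := Real.log_nonneg (by norm_num)
  rcases hp with ⟨hb, hj⟩ | ⟨rfl, hj⟩
  · have hb3 : b ≠ 3 := by omega
    unfold al ta
    rw [if_neg hb3, if_neg hb3]
    have hs : (sG b : ℝ) ≠ 0 := by exact_mod_cast (sG_pos b).ne'
    have hN' : (N : ℝ) ≠ 0 := by exact_mod_cast (by omega : N ≠ 0)
    have e : (1 - ((j / 2 : ℕ) : ℝ) / ((sG b * N : ℕ) : ℝ)) * la C K n N b +
        ((j / 2 : ℕ) : ℝ) / ((sG b * N : ℕ) : ℝ) * la C K n N (b + 1) =
        Real.log C + K * Real.log n + n * PhiG +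
        2 * ((2 * (ho b * N) : ℕ) + 2 * ((j / 2 : ℕ) : ℝ)) * Real.log n -
        N * Real.log 2 * ((tG b : ℝ) + ((j / 2 : ℕ) : ℝ) / ((sG b * N : ℕ) : ℝ) *
          ((tG (b + 1) : ℝ) - tG b)) := by
      unfold la
      rw [ho_succ]
      push_cast
      field_simp
      ring
    rw [e]
    have h1 : ((2 * (ho b * N) : ℕ) : ℝ) + 2 * ((j / 2 : ℕ) : ℝ) ≤ i := by
      have : 2 * (ho b * N) + 2 * (j / 2) ≤ i := by omega
      exact_mod_cast this
    have h2 : 2 * (((2 * (ho b * N) : ℕ) : ℝ) + 2 * ((j / 2 : ℕ) : ℝ)) * Real.log n ≤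
        2 * (i : ℝ) * Real.log n := by
      apply mul_le_mul_of_nonneg_right _ hl
      linarith
    linarith
  · unfold al ta la
    rw [if_pos rfl, if_pos rfl]
    have h1 : 4 * ((ho 3 : ℝ) * N) * Real.log n ≤ 2 * (i : ℝ) * Real.log n := by
      apply mul_le_mul_of_nonneg_right _ hl
      have : 4 * (ho 3 * N) ≤ 2 * i := by omega
      exact_mod_cast this
    have h2 : 0 ≤ (tG 3 : ℝ) * N * Real.log 2 := by positivity
    linarith

lemma sum_ta {N : ℕ} (hN : 1 ≤ N) :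
    ∑ i ∈ Finset.range (96 * N + 4), ta N (loc N i).1 (loc N i).2 =
      (7513 * N - 75) * (N * Real.log 2) := by
  rw [sum_loc N (ta N)]
  have h3 : ∑ j ∈ Finset.range 4, ta N 3 j = 0 := by
    apply Finset.sum_eq_zero
    intro j _
    unfold ta
    rw [if_pos rfl]
  have hb : ∀ b, b ≠ 3 → ∑ j ∈ Finset.range (2 * (sG b * N)), ta N b j =
      N * Real.log 2 * (((sG b * N : ℕ) : ℝ) * ((tG b : ℝ) + tG (b + 1)) - ((tG (b + 1) : ℝ) - tG b)) := by
    intro b hb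
    rw [← tau_block _ (Nat.mul_pos (sG_pos b) hN), Finset.mul_sum]
    apply Finset.sum_congr rfl
    intro j _
    unfold ta
    rw [if_neg hb]
  rw [h3, Finset.sum_range_succ (fun b => ∑ j ∈ Finset.range (2 * (sG b * N)), ta N b j) 2,
    Finset.sum_range_succ (fun b => ∑ j ∈ Finset.range (2 * (sG b * N)), ta N b j) 1,
    Finset.sum_range_one, hb 0 (by norm_num), hb 1 (by norm_num), hb 2 (by norm_num)]
  have s0 : sG 0 = 11 := rfl
  have s1 : sG 1 = 17 := rfl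
  have s2 : sG 2 = 20 := rfl
  have t0 : tG 0 = 0 := rfl
  have t1 : tG 1 = 76 := rfl
  have t2 : tG 2 = 105 := rfl
  have t3 : tG 3 = 75 := rfl
  norm_num [s0, s1, s2, t0, t1, t2, t3]
  ring

lemma sum_al {C : ℝ} {K n N : ℕ} (hN : 1 ≤ N) :
    ∑ i ∈ Finset.range (96 * N + 4), al C K n N (loc N i).1 (loc N i).2 ≤
      (96 * N + 4 : ℕ) * (Real.log C + K * Real.log n + n * PhiG) +
      ((96 * N + 4 : ℕ) : ℝ) ^ 2 * Real.log n - (7513 * N - 75) * (N * Real.log 2) := by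
  have h1 : ∀ i ∈ Finset.range (96 * N + 4), al C K n N (loc N i).1 (loc N i).2 ≤
      (Real.log C + K * Real.log n + n * PhiG) + 2 * (i : ℝ) * Real.log n -
      ta N (loc N i).1 (loc N i).2 := by
    intro i hi
    rw [Finset.mem_range] at hi
    obtain ⟨h2, h3⟩ := loc_spec hi
    exact al_le hN h3 h2
  have h2 := Finset.sum_le_sum h1
  rw [Finset.sum_sub_distrib, Finset.sum_add_distrib, Finset.sum_const, Finset.card_range,
    nsmul_eq_mul, sum_ta hN] at h2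
  have hl : 0 ≤ Real.log n := Real.log_natCast_nonneg n
  have h3 : ∑ i ∈ Finset.range (96 * N + 4), 2 * (i : ℝ) * Real.log n ≤
      ((96 * N + 4 : ℕ) : ℝ) ^ 2 * Real.log n := by
    have e1 : ∑ i ∈ Finset.range (96 * N + 4), 2 * (i : ℝ) * Real.log n =
        (2 * ∑ i ∈ Finset.range (96 * N + 4), (i : ℝ)) * Real.log n := by
      rw [← Finset.sum_mul, ← Finset.mul_sum]
    rw [e1, sum_k]
    apply mul_le_mul_of_nonneg_right _ hl
    have : (0 : ℝ) ≤ ((96 * N + 4 : ℕ) : ℝ) := by positivity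
    nlinarith
  linarith

/-- the bound of the functional by the integral -/
def LHyp (C2 : ℝ) (n : ℕ) (L : ℚ[X] →ₗ[ℚ] ℚ) : Prop :=
    ∀ Q : ℚ[X], Q.natDegree ≤ 8 * n - 2 → ∀ B : ℝ,
      (∀ y : ℝ, NG n y * ‖aeval (zl y) Q‖ * Real.exp (-(2 * Real.pi * |y|)) ≤ B * (1 + y ^ 2)⁻¹) →
      |((L Q : ℚ) : ℝ)| ≤ C2 * B

lemma sq_le_entry {n N : ℕ} {C C2 : ℝ} {K : ℕ} (hC : 0 < C) (hC2 : 0 < C2) (h : Hyp C K)
    {L : ℚ[X] →ₗ[ℚ] ℚ} (h2 : LHyp C2 n L) (hN : 1 ≤ N) (hn : n = 24 * N + 1)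
    {b j b' j' : ℕ} (hp : Pos N b j) (hp' : Pos N b' j')
    (hd : 2 * (ho b * N) + j < 96 * N + 4) (hd' : 2 * (ho b' * N) + j' < 96 * N + 4) :
    |((L (PA n N b j * PA n N b' j') : ℚ) : ℝ)| ^ 2 ≤
      (C2 * Real.exp (al C K n N b j)) * (C2 * Real.exp (al C K n N b' j')) := by
  set B := Real.exp ((al C K n N b j + al C K n N b' j') / 2) with hB
  have e2 : B ^ 2 = Real.exp (al C K n N b j) * Real.exp (al C K n N b' j') := by
    rw [hB, ← Real.exp_nat_mul, ← Real.exp_add]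
    congr 1
    push_cast
    ring
  have key : |((L (PA n N b j * PA n N b' j') : ℚ) : ℝ)| ≤ C2 * B := by
    apply h2
    · rw [(PA_monic n N b j).natDegree_mul (PA_monic n N b' j'), PA_deg, PA_deg]
      omega
    · intro y
      have hy : (0 : ℝ) < 1 + y ^ 2 := by positivity
      rw [← div_eq_mul_inv, le_div_iff₀ hy, map_mul, norm_mul]
      have p1 := PA_bound hC h hN hn hp y
      have p2 := PA_bound hC h hN hn hp' y
      set T := NG n y * Real.exp (-(2 * Real.pi * |y|)) * (1 + y ^ 2) with hT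
      have hT0 : 0 ≤ T := by
        have := NG_nonneg n y
        rw [hT]; positivity
      have e1 : NG n y * (‖aeval (zl y) (PA n N b j)‖ * ‖aeval (zl y) (PA n N b' j')‖) *
          Real.exp (-(2 * Real.pi * |y|)) * (1 + y ^ 2) =
          T * (‖aeval (zl y) (PA n N b j)‖ * ‖aeval (zl y) (PA n N b' j')‖) := by rw [hT]; ring
      rw [e1]
      apply le_of_pow_le_pow_left₀ two_ne_zero (Real.exp_pos _).le
      rw [e2]
      calc (T * (‖aeval (zl y) (PA n N b j)‖ * ‖aeval (zl y) (PA n N b' j')‖)) ^ 2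
          = (T * ‖aeval (zl y) (PA n N b j)‖ ^ 2) * (T * ‖aeval (zl y) (PA n N b' j')‖ ^ 2) := by ring
        _ ≤ _ := mul_le_mul p1 p2 (by positivity) (by positivity)
  calc |((L (PA n N b j * PA n N b' j') : ℚ) : ℝ)| ^ 2 ≤ (C2 * B) ^ 2 :=
        pow_le_pow_left₀ (abs_nonneg _) key 2
    _ = C2 * C2 * B ^ 2 := by ring
    _ = _ := by rw [e2]; ring

lemma log_det_le {n N : ℕ} {C C2 : ℝ} {K : ℕ} (hC : 0 < C) (hC2 : 0 < C2) (h : Hyp C K)
    {L : ℚ[X] →ₗ[ℚ] ℚ} (h2 : LHyp C2 n L) (hN : 1 ≤ N) (hn : n = 24 * N + 1)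
    (hD : (Matrix.of fun i j : Fin (96 * N + 4) => L (X ^ (i.1 + j.1))).det ≠ 0) :
    Real.log |(((Matrix.of fun i j : Fin (96 * N + 4) => L (X ^ (i.1 + j.1))).det : ℚ) : ℝ)| ≤
      (96 * N + 4 : ℕ) * Real.log (96 * N + 4 : ℕ) +
      (96 * N + 4 : ℕ) * Real.log C2 +
      ∑ i ∈ Finset.range (96 * N + 4), al C K n N (loc N i).1 (loc N i).2 := by
  set P : ℕ → ℚ[X] := fun i => PA n N (loc N i).1 (loc N i).2 with hP
  have hA1 := Pool.Agent.H336R2.HD.A1_det_monic L (96 * N + 4) P (fun i hi => by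
    obtain ⟨e2, _⟩ := loc_spec hi
    exact ⟨PA_monic _ _ _ _, by rw [hP]; simp only; rw [PA_deg]; exact e2⟩)
  have hdet : (((Matrix.of fun i j : Fin (96 * N + 4) => L (X ^ (i.1 + j.1))).det : ℚ) : ℝ) =
      (Matrix.of fun i j : Fin (96 * N + 4) => ((L (P i * P j) : ℚ) : ℝ)).det := by
    rw [← hA1]
    have := RingHom.map_det (Rat.castHom ℝ) (Matrix.of fun i j : Fin (96 * N + 4) => L (P i * P j))
    simp only [Rat.coe_castHom] at this
    rw [this]
    congr 1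
  have hA4 := Pool.Agent.H336R2.HD.A4_abs_det (96 * N + 4)
    (Matrix.of fun i j : Fin (96 * N + 4) => ((L (P i * P j) : ℚ) : ℝ))
    (fun i => C2 * Real.exp (al C K n N (loc N i).1 (loc N i).2)) (fun i => by positivity) (by
      intro i j
      obtain ⟨a1, a2⟩ := loc_spec i.2
      obtain ⟨b1, b2⟩ := loc_spec j.2
      simp only [Matrix.of_apply]
      exact sq_le_entry hC hC2 h h2 hN hn a2 b2 (by rw [a1]; exact i.2) (by rw [b1]; exact j.2))
  rw [← hdet] at hA4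
  have hpos : 0 < |(((Matrix.of fun i j : Fin (96 * N + 4) => L (X ^ (i.1 + j.1))).det : ℚ) : ℝ)| :=
    abs_pos.2 (by exact_mod_cast hD)
  have hlog := Real.log_le_log hpos hA4
  have hf : (0 : ℝ) < ((96 * N + 4).factorial : ℝ) := by exact_mod_cast Nat.factorial_pos _
  have hm : (0 : ℝ) < ((96 * N + 4 : ℕ) : ℝ) := by exact_mod_cast (by omega : 0 < 96 * N + 4)
  rw [Finset.prod_mul_distrib, Finset.prod_const, Finset.card_range, ← Real.exp_sum,
    Real.log_mul hf.ne' (by positivity), Real.log_mul (by positivity) (by positivity), Real.log_pow,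
    Real.log_exp] at hlog
  have hfac : Real.log ((96 * N + 4).factorial : ℝ) ≤ (96 * N + 4 : ℕ) * Real.log (96 * N + 4 : ℕ) := by
    rw [← Real.log_pow]
    apply Real.log_le_log hf
    exact_mod_cast Nat.factorial_le_pow (96 * N + 4)
  linarith

lemma final_ev (c : ℝ) (K : ℕ) (ε : ℝ) (hε : 0 < ε) :
    ∀ᶠ n : ℕ in atTop, 4 * (n : ℝ) * (c + K * Real.log n) ≤ ε * (n : ℝ) ^ 2 := by
  have h1 : Tendsto (fun n : ℕ => Real.log (n : ℝ) / n) atTop (𝓝 0) := by
    have := Real.isLittleO_log_id_atTop.tendsto_div_nhds_zero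
    exact this.comp tendsto_natCast_atTop_atTop
  have h2 : Tendsto (fun n : ℕ => c / (n : ℝ)) atTop (𝓝 0) := tendsto_const_div_atTop_nhds_zero_nat c
  have h3 : Tendsto (fun n : ℕ => 4 * (c / (n : ℝ) + K * (Real.log (n : ℝ) / n))) atTop (𝓝 0) := by
    have := (h2.add (h1.const_mul (K : ℝ))).const_mul 4
    simpa using this
  have h4 := h3.eventually (gt_mem_nhds hε)
  filter_upwards [h4, eventually_gt_atTop 0] with n hn hn0
  have hn' : (0 : ℝ) < n := by exact_mod_cast hn0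
  have e : 4 * (n : ℝ) * (c + K * Real.log n) = 4 * (c / (n : ℝ) + K * (Real.log (n : ℝ) / n)) * (n : ℝ) ^ 2 := by
    field_simp
  rw [e]
  exact mul_le_mul_of_nonneg_right hn.le (by positivity)

/-- total archimedean bound, from the estimate `G1_main` -/
theorem arch_of (hG1 : ∃ (C : ℝ) (K : ℕ), 0 < C ∧ ∀ N : ℕ, 1 ≤ N → ∀ n : ℕ, n = 24 * N + 1 → ∀ y : ℝ,
    NG n y * Real.exp (-(2 * Real.pi * |y|)) * (1 + y ^ 2) ^ 5 * FXpG ((y / n) ^ 2) ^ N ≤
      C * (n : ℝ) ^ K * Real.exp (n * PhiG))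
    (C2 : ℝ) (hC2 : 0 < C2) (ε : ℝ) (hε : 0 < ε) : ∀ᶠ N : ℕ in atTop, ∀ n : ℕ, n = 24 * N + 1 →
    ∀ L : ℚ[X] →ₗ[ℚ] ℚ,
    (∀ Q : ℚ[X], Q.natDegree ≤ 8 * n - 2 → ∀ B : ℝ,
      (∀ y : ℝ, NG n y * ‖aeval (zl y) Q‖ * Real.exp (-(2 * Real.pi * |y|)) ≤ B * (1 + y ^ 2)⁻¹) →
      |((L Q : ℚ) : ℝ)| ≤ C2 * B) →
    (Matrix.of fun i j : Fin (4 * n) => L (X ^ (i.1 + j.1))).det ≠ 0 →
    Real.log |(((Matrix.of fun i j : Fin (4 * n) => L (X ^ (i.1 + j.1))).det : ℚ) : ℝ)| ≤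
      16 * (n : ℝ) ^ 2 * Real.log n + (4 * PhiG - 7513 / 576 * Real.log 2 + ε) * (n : ℝ) ^ 2 := by
  obtain ⟨C, K, hC, h⟩ := hG1
  set c : ℝ := |Real.log 4 + Real.log C + Real.log C2| + 10 with hc
  have hev := final_ev c (K + 1) ε hε
  have htd : Tendsto (fun N : ℕ => 24 * N + 1) atTop atTop := by
    apply tendsto_atTop_mono (fun N => _) tendsto_id
    intro N
    show N ≤ 24 * N + 1
    omega
  filter_upwards [htd.eventually hev, eventually_ge_atTop 1] with N hN hN1 n hn L hL hD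
  have hm : 4 * n = 96 * N + 4 := by omega
  rw [hm] at hD ⊢
  rw [← hn] at hN
  have hlog := log_det_le hC hC2 h hL hN1 hn hD
  have hsum := sum_al (C := C) (K := K) (n := n) (N := N) hN1
  have hn0 : (1 : ℝ) ≤ n := by exact_mod_cast (by omega : 1 ≤ n)
  have hl : 0 ≤ Real.log n := Real.log_natCast_nonneg n
  have hl2 : 0 ≤ Real.log 2 := Real.log_nonneg (by norm_num)
  have hl2' : Real.log 2 ≤ 1 := by
    have := Real.log_two_lt_d9
    linarith
  have hmn : ((96 * N + 4 : ℕ) : ℝ) = 4 * n := by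
    rw [← hm]; push_cast; ring
  have hNn : (24 : ℝ) * N = n - 1 := by
    have h' : (n : ℝ) = 24 * N + 1 := by rw [hn]; push_cast; ring
    linarith
  rw [hmn] at hlog hsum
  have p1 : Real.log (4 * (n : ℝ)) = Real.log 4 + Real.log n :=
    Real.log_mul (by norm_num) (by positivity)
  rw [p1] at hlog
  have p4 : -((7513 * (N : ℝ) - 75) * (N * Real.log 2)) ≤
      - (7513 / 576 * Real.log 2) * (n : ℝ) ^ 2 + 40 * (n : ℝ) := by
    have hNe : (N : ℝ) = (n - 1) / 24 := by linarith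
    rw [hNe]
    have e : - (7513 / 576 * Real.log 2) * (n : ℝ) ^ 2 + 40 * (n : ℝ) +
        (7513 * (((n : ℝ) - 1) / 24) - 75) * (((n : ℝ) - 1) / 24 * Real.log 2) =
        40 * (n : ℝ) - ((7513 / 288 + 75 / 24) * (n : ℝ) - (7513 / 576 + 75 / 24)) * Real.log 2 := by
      ring
    have h1 : 0 ≤ 40 * (n : ℝ) - ((7513 / 288 + 75 / 24) * (n : ℝ) - (7513 / 576 + 75 / 24)) * Real.log 2 := by
      have h2 : ((7513 / 288 + 75 / 24) * (n : ℝ) - (7513 / 576 + 75 / 24)) * Real.log 2 ≤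
          ((7513 / 288 + 75 / 24) * (n : ℝ)) * 1 := by
        apply mul_le_mul _ hl2' hl2 (by positivity)
        linarith
      linarith
    linarith
  have p6 : 4 * (n : ℝ) * (Real.log 4 + Real.log C + Real.log C2) ≤
      4 * n * |Real.log 4 + Real.log C + Real.log C2| :=
    mul_le_mul_of_nonneg_left (le_abs_self _) (by positivity)
  have hN' : 4 * (n : ℝ) * (c + ((K : ℝ) + 1) * Real.log n) ≤ ε * (n : ℝ) ^ 2 := by
    have := hN
    push_cast at this
    exact this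
  rw [hc] at hN'
  have e2 : 4 * (n : ℝ) * (|Real.log 4 + Real.log C + Real.log C2| + 10 + ((K : ℝ) + 1) * Real.log n) =
      4 * n * |Real.log 4 + Real.log C + Real.log C2| + 40 * n +
      4 * n * (((K : ℝ) + 1) * Real.log n) := by ring
  rw [e2] at hN'
  have e3 : 16 * (n : ℝ) ^ 2 * Real.log n + (4 * PhiG - 7513 / 576 * Real.log 2 + ε) * (n : ℝ) ^ 2 =
      16 * (n : ℝ) ^ 2 * Real.log n + 4 * PhiG * (n : ℝ) ^ 2 - 7513 / 576 * Real.log 2 * (n : ℝ) ^ 2 +
      ε * (n : ℝ) ^ 2 := by ring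
  rw [e3]
  have e4 : 4 * (n : ℝ) * (Real.log C + K * Real.log n + n * PhiG) + (4 * (n : ℝ)) ^ 2 * Real.log n =
      4 * (n : ℝ) * (Real.log 4 + Real.log C + Real.log C2) + 4 * n * (((K : ℝ) + 1) * Real.log n) +
      4 * PhiG * (n : ℝ) ^ 2 + 16 * (n : ℝ) ^ 2 * Real.log n -
      4 * (n : ℝ) * (Real.log 4 + Real.log n) - 4 * (n : ℝ) * Real.log C2 := by ring
  linarith only [hlog, hsum, p4, p6, hN', e4]

end G4

end

end Pool.Agent.ZF
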