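import Pool.Agent.H383.Z34.GDefs

/-!
# Numerical value of the exponential rate
-/

namespace Pool.Agent.ZF

noncomputable section

namespace G5h

lemma log_seven : 4 * Real.log 7 ≤ 5 * Real.log 2 + Real.log 3 + 2 * Real.log 5 + 1 / 2400 := by
  have h1 : Real.log (2401 / 2400) ≤ 2401 / 2400 - 1 :=
    Real.log_le_sub_one_of_pos (by norm_num)
  have h2 : Real.log (2401 / 2400) = Real.log 2401 - Real.log 2400 :=
    Real.log_div (by norm_num) (by norm_num)
  have h3 : Real.log 2401 = 4 * Real.log 7 := by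
    rw [show (2401 : ℝ) = 7 ^ 4 by norm_num, Real.log_pow]; norm_num
  have h4 : Real.log 2400 = 5 * Real.log 2 + Real.log 3 + 2 * Real.log 5 := by
    rw [show (2400 : ℝ) = 2 ^ 5 * 3 * 5 ^ 2 by norm_num, Real.log_mul (by norm_num) (by norm_num),
      Real.log_mul (by norm_num) (by norm_num), Real.log_pow, Real.log_pow]
    norm_num
  rw [h2, h3, h4] at h1
  linarith

end G5h

/-- true value `-57.9101` -/
theorem G5_num : 4 * PhiG - 7513 / 576 * Real.log 2 ≤ -5785 / 100 := by
  unfold PhiG
  rw [Real.log_ten_eq]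
  have h7 := G5h.log_seven
  have h2 := Real.log_two_gt_d9
  have h2' := Real.log_two_lt_d9
  have h3' := Real.log_three_lt_d9
  have h5 := Real.log_five_gt_d9
  have h5' := Real.log_five_lt_d9
  linarith

end

end Pool.Agent.ZF
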