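import Pool.Agent.H387R3.ZF.B3
import Pool.Agent.H383.Z34.G1Mfin
import Pool.Agent.H383.Z34.G4
import Pool.Agent.H383.Z34.G5

/-!
# `AM`: the archimedean part for `1, ζ(3), ζ(4)`
-/

open Polynomial Pool.Agent.H337R2 Filter Topology

namespace Pool.Agent.ZF

noncomputable section

namespace AMx

lemma aevalC (a : ℚ) (z : ℂ) : aeval z (C a : ℚ[X]) = ((a : ℝ) : ℂ) := by
  rw [aeval_C]; simp

lemma aeval_fac (j : ℕ) (z : ℂ) : aeval z (X + C (j : ℚ) : ℚ[X]) = z + (j : ℂ) := by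
  rw [map_add, aeval_X, aevalC]; simp

lemma PF_norm (n : ℕ) (y : ℝ) : ‖aeval (zl y) (PF n)‖ =
    (((7 * n).factorial : ℕ) : ℝ) ^ 2 / (((2 * n).factorial : ℕ) : ℝ) ^ 3 *
    (∏ m ∈ Finset.Icc 1 (2 * n), ‖zl y + (m : ℂ)‖ ^ 3) := by
  unfold PF
  rw [map_mul, aevalC, norm_mul, Complex.norm_real, map_prod, norm_prod]
  congr 1
  · unfold cF
    push_cast
    rw [Real.norm_of_nonneg (by positivity)]
  · apply Finset.prod_congr rfl
    intro j _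
    rw [map_pow, aeval_fac, norm_pow]

lemma QQ_norm (n : ℕ) (y : ℝ) : ‖aeval (zl y) (QQ (sF n) mF)‖ =
    ∏ k ∈ Finset.Icc (3 * n + 1) (10 * n), ‖zl y + (k : ℂ)‖ ^ 2 := by
  unfold QQ
  rw [map_prod, norm_prod]
  apply Finset.prod_congr rfl
  intro j _
  rw [map_pow, aeval_fac, norm_pow]

lemma Rn_norm (n : ℕ) (y : ℝ) : ‖Rn n y‖ = NG n y := by
  unfold Rn NG
  rw [norm_div, PF_norm, QQ_norm]

end AMx

/-- **the archimedean part** -/
theorem AM_main (α β : ℚ) (h : zr 4 = (α : ℝ) + β * zr 3) : ∀ᶠ N : ℕ in atTop, ∀ n : ℕ, n = 24 * N + 1 →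
    DET n α β (4 * n) ≠ 0 →
    Real.log |((DET n α β (4 * n) : ℚ) : ℝ)| ≤ 16 * (n : ℝ) ^ 2 * Real.log n - 56 * (n : ℝ) ^ 2 := by
  obtain ⟨C2, hC2, hB⟩ := B3_NL_le β
  filter_upwards [G4.arch_of G1_main C2 hC2 1 one_pos, eventually_ge_atTop 1] with N hN hN1 n hn hD
  have h1 := hN n hn (NL n α β) (fun Q hQ B hy => hB n (by omega) α h Q hQ B (fun y => by
    rw [AMx.Rn_norm]; exact hy y)) hD
  have h2 := G5_num
  have h3 : (0 : ℝ) ≤ (n : ℝ) ^ 2 := by positivity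
  have h4 : (4 * PhiG - 7513 / 576 * Real.log 2 + 1) * (n : ℝ) ^ 2 ≤ -56 * (n : ℝ) ^ 2 := by
    apply mul_le_mul_of_nonneg_right _ h3
    linarith
  unfold DET
  linarith

end

end Pool.Agent.ZF
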