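import Pool.Agent.H383.Z34.GDefs

/-!
# The integral for the first derivative (`b = 2`)
-/

open MeasureTheory Filter Topology Complex Polynomial Pool.Agent.H337R2

namespace Pool.Agent.ZF

noncomputable section

theorem Rc_le2 (s : Finset ℕ) (μ : ℕ → ℕ) (P : ℚ[X]) (hdeg : P.natDegree + 2 ≤ (QQ s μ).natDegree) :
    ∃ C : ℝ, 0 < C ∧ ∀ y : ℝ, ‖Rc s μ P y‖ ≤ C * (1 + y ^ 2)⁻¹ := by
  have hd : P.degree < (QQ s μ).degree := Polynomial.degree_lt_degree (by omega)
  set D := (QQ s μ).natDegree with hD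
  set A : ℝ := ∑ i ∈ Finset.range (P.natDegree + 1), ‖((P.coeff i : ℚ) : ℂ)‖ with hA
  have hA0 : 0 ≤ A := Finset.sum_nonneg fun i _ => norm_nonneg _
  refine ⟨(A + 1) * 2 ^ D, by positivity, fun y => ?_⟩
  set r : ℝ := Real.sqrt (1 + y ^ 2) with hr
  have hr1 : 1 ≤ r := by
    rw [hr, Real.one_le_sqrt]
    nlinarith [sq_nonneg y]
  have hr2 : r ^ 2 = 1 + y ^ 2 := Real.sq_sqrt (by positivity)
  have hr0 : 0 < r := by linarith
  rw [Rc_eq s μ P hd y, norm_div]
  have hz : ‖zl y‖ ≤ r := by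
    have h0 : zl y = ((((0 : ℕ) : ℝ) - 1 / 2 : ℝ) : ℂ) + y * I := by
      have := zl_add y 0
      simpa using this
    rw [hr]
    apply Real.le_sqrt_of_sq_le
    rw [h0, ← Complex.normSq_eq_norm_sq, Complex.normSq_add_mul_I]
    push_cast
    nlinarith [sq_nonneg y]
  have hzk : ∀ k : ℕ, r / 2 ≤ ‖zl y + k‖ := by
    intro k
    rw [zl_add]
    have h1 : (1 : ℝ) / 4 ≤ ((k : ℝ) - 1 / 2) ^ 2 := by
      rcases Nat.eq_zero_or_pos k with h | h
      · subst h; norm_num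
      · have : (1 : ℝ) ≤ k := by exact_mod_cast h
        nlinarith
    have h2 : (r / 2) ^ 2 ≤ ‖((((k : ℝ) - 1 / 2 : ℝ)) : ℂ) + y * I‖ ^ 2 := by
      rw [← Complex.normSq_eq_norm_sq, Complex.normSq_add_mul_I, div_pow, hr2]
      nlinarith [sq_nonneg y]
    exact (pow_le_pow_iff_left₀ (by positivity) (norm_nonneg _) two_ne_zero).1 h2
  have hP : ‖aeval (zl y) P‖ ≤ A * r ^ P.natDegree := by
    rw [Polynomial.aeval_eq_sum_range, hA, Finset.sum_mul]
    refine (norm_sum_le _ _).trans (Finset.sum_le_sum fun i hi => ?_)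
    rw [Finset.mem_range] at hi
    have e : P.coeff i • zl y ^ i = ((P.coeff i : ℚ) : ℂ) * zl y ^ i := by
      rw [Algebra.smul_def]; rfl
    rw [e, norm_mul, norm_pow]
    apply mul_le_mul_of_nonneg_left _ (norm_nonneg _)
    calc ‖zl y‖ ^ i ≤ r ^ i := pow_le_pow_left₀ (norm_nonneg _) hz i
      _ ≤ r ^ P.natDegree := pow_le_pow_right₀ hr1 (by omega)
  have hQ : (r / 2) ^ D ≤ ‖aeval (zl y) (QQ s μ)‖ := by
    rw [hD, QQ_natDegree, ← Finset.prod_pow_eq_pow_sum]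
    unfold QQ
    rw [map_prod, norm_prod]
    apply Finset.prod_le_prod
    · intro k _; positivity
    · intro k _
      rw [map_pow, map_add, aeval_X, aeval_C, norm_pow]
      have e1 : (algebraMap ℚ ℂ) (k : ℚ) = (k : ℂ) := by simp
      rw [e1]
      exact pow_le_pow_left₀ (by positivity) (hzk k) _
  have hQ0 : 0 < (r / 2) ^ D := by positivity
  calc ‖aeval (zl y) P‖ / ‖aeval (zl y) (QQ s μ)‖ ≤ A * r ^ P.natDegree / (r / 2) ^ D := by
        apply div_le_div₀ (by positivity) hP hQ0 hQ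
    _ ≤ (A + 1) * 2 ^ D * (1 + y ^ 2)⁻¹ := by
        rw [← hr2, div_pow, div_div_eq_mul_div, div_le_iff₀ (by positivity)]
        have h1 : r ^ P.natDegree * r ^ 2 ≤ r ^ D := by
          rw [← pow_add]
          exact pow_le_pow_right₀ hr1 (by omega)
        have h2 : (A + 1) * 2 ^ D * (r ^ 2)⁻¹ * r ^ D = (A + 1) * 2 ^ D * (r ^ D / r ^ 2) := by ring
        rw [h2]
        have h3 : r ^ P.natDegree ≤ r ^ D / r ^ 2 := by
          rw [le_div_iff₀ (by positivity)]; exact h1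
        calc A * r ^ P.natDegree * 2 ^ D = A * 2 ^ D * r ^ P.natDegree := by ring
          _ ≤ (A + 1) * 2 ^ D * (r ^ D / r ^ 2) := by
              apply mul_le_mul _ h3 (by positivity) (by positivity)
              nlinarith [show (0 : ℝ) < 2 ^ D by positivity]

namespace CXaux

lemma term_int_norm (s : Finset ℕ) (μ : ℕ → ℕ) (P : ℚ[X]) (hdeg : P.natDegree + 2 ≤ (QQ s μ).natDegree)
    {b : ℕ} (hb : 2 ≤ b) :
    ∃ C : ℝ, 0 < C ∧ ∀ (m : ℤ) (y : ℝ), ‖Rc s μ P y * li (hm m) y ^ b‖ ≤ (C * (1 / (|(m : ℝ)| + 1) ^ 2)) * (1 + y ^ 2)⁻¹ := by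
  obtain ⟨C, hC, h⟩ := Rc_le2 s μ P hdeg
  refine ⟨C * 4 ^ b, by positivity, fun m y => ?_⟩
  rw [norm_mul]
  have h1 := li_hm_le (b := b) hb m y
  have h3 := h y
  calc _ ≤ (C * (1 + y ^ 2)⁻¹) * (4 ^ b * (1 / (|(m : ℝ)| + 1) ^ 2)) := by
        gcongr
    _ = _ := by ring

lemma term_integrable (s : Finset ℕ) (μ : ℕ → ℕ) (P : ℚ[X]) (hdeg : P.natDegree + 2 ≤ (QQ s μ).natDegree)
    {b : ℕ} (hb : 2 ≤ b) (m : ℤ) :
    Integrable (fun y : ℝ => Rc s μ P y * li (hm m) y ^ b) := by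
  obtain ⟨C, _, hC⟩ := term_int_norm s μ P hdeg hb
  refine Integrable.mono' (integrable_inv_one_add_sq.const_mul (C * (1 / (|(m : ℝ)| + 1) ^ 2))) ?_ (Filter.Eventually.of_forall (hC m))
  exact ((Rc_continuous s μ P).mul ((li_continuous (hm_ne m)).pow b)).aestronglyMeasurable

theorem hasSum_int (s : Finset ℕ) (μ : ℕ → ℕ) (P : ℚ[X]) (hdeg : P.natDegree + 2 ≤ (QQ s μ).natDegree)
    {b : ℕ} (hb : 2 ≤ b) :
    HasSum (fun m : ℤ => ∫ y : ℝ, Rc s μ P y * li (hm m) y ^ b) (∫ y : ℝ, Rc s μ P y * KK b y) := by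
  obtain ⟨C, _, hC⟩ := term_int_norm s μ P hdeg hb
  have h := hasSum_integral_of_summable_integral_norm (μ := volume) (F := fun (m : ℤ) (y : ℝ) => Rc s μ P y * li (hm m) y ^ b)
    (fun m => term_integrable s μ P hdeg hb m) (by
      apply Summable.of_nonneg_of_le (fun m => integral_nonneg fun y => norm_nonneg _)
        (f := fun m : ℤ => (C * (1 / (|(m : ℝ)| + 1) ^ 2)) * ∫ y : ℝ, (1 + y ^ 2)⁻¹)
      · intro m
        rw [← integral_const_mul]
        exact integral_mono (term_integrable s μ P hdeg hb m).norm (integrable_inv_one_add_sq.const_mul _) (hC m)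
      · exact (summable_abs_sq.mul_left C).mul_right _)
  have e : (∫ y : ℝ, Rc s μ P y * KK b y) = ∫ y : ℝ, ∑' m : ℤ, Rc s μ P y * li (hm m) y ^ b := by
    refine integral_congr_ae (Filter.Eventually.of_forall fun y => ?_)
    simp only [KK]
    rw [tsum_mul_left]
  rw [e]
  exact h

/-- integral against one term of the kernel, right of the line -/
lemma int_nat (s : Finset ℕ) (μ : ℕ → ℕ) (P : ℚ[X]) (hdeg : P.degree < (QQ s μ).degree)
    (hs : ∀ k ∈ s, 1 ≤ k) {b : ℕ} (hb : 2 ≤ b) (t : ℕ) :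
    ∫ y : ℝ, Rc s μ P y * li (hm t) y ^ b =
      -(2 * Real.pi) * ((PowerSeries.coeff (b - 1) (RS s μ P (t : ℚ)) : ℚ) : ℂ) := by
  obtain ⟨β, rfl⟩ : ∃ β, b = β + 1 := ⟨b - 1, by omega⟩
  have hne : ∀ m ∈ s, (t : ℚ) + (m : ℚ) ≠ 0 := by
    intro m hm0
    have h1 : (1 : ℚ) ≤ m := by exact_mod_cast hs m hm0
    positivity
  have hV : hm (t : ℤ) < 0 := by
    unfold hm
    have : (0 : ℝ) ≤ ((t : ℤ) : ℝ) := by positivity
    linarith
  rw [Nat.add_sub_cancel, coeff_RS s μ P hdeg _ hne β]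
  have h1 : ∀ y : ℝ, Rc s μ P y * li (hm t) y ^ (β + 1) = ∑ k ∈ s, ∑ j ∈ Finset.range (μ k),
      ((pfc s μ P k j : ℚ) : ℂ) * (li ((k : ℝ) - 1 / 2) y ^ (μ k - j) * li (hm t) y ^ (β + 1)) := by
    intro y
    unfold Rc
    rw [Finset.sum_mul]
    apply Finset.sum_congr rfl
    intro k _
    rw [Finset.sum_mul]
    apply Finset.sum_congr rfl
    intro j _
    ring
  simp_rw [h1]
  rw [integral_finsetSum]
  · push_cast
    rw [Finset.mul_sum]
    apply Finset.sum_congr rfl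
    intro k hk
    have hk1 : (0 : ℝ) < (k : ℝ) - 1 / 2 := by
      have : (1 : ℝ) ≤ k := by exact_mod_cast hs k hk
      linarith
    rw [integral_finsetSum, Finset.mul_sum]
    · apply Finset.sum_congr rfl
      intro j hj
      rw [Finset.mem_range] at hj
      rw [integral_const_mul]
      obtain ⟨i, hi⟩ : ∃ i, μ k - j = i + 1 := ⟨μ k - j - 1, by omega⟩
      rw [hi, J_neg hk1 hV (i + β) i β rfl]
      have e1 : ((((k : ℝ) - 1 / 2 : ℝ)) : ℂ) - ((hm (t : ℤ) : ℝ) : ℂ) = (t : ℂ) + k := by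
        unfold hm; push_cast; ring
      rw [e1, Nat.add_sub_cancel]
      have e2 : i + 1 + β = i + β + 1 := by ring
      rw [e2]
      ring
    · intro j hj
      rw [Finset.mem_range] at hj
      exact (li_prod_integrable hk1.ne' hV.ne (by omega)).const_mul _
  · intro k hk
    have hk1 : (0 : ℝ) < (k : ℝ) - 1 / 2 := by
      have : (1 : ℝ) ≤ k := by exact_mod_cast hs k hk
      linarith
    apply integrable_finsetSum
    intro j hj
    rw [Finset.mem_range] at hj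
    exact (li_prod_integrable hk1.ne' hV.ne (by omega)).const_mul _

/-- integral against one term of the kernel, left of the line -/
lemma int_neg (s : Finset ℕ) (μ : ℕ → ℕ) (P : ℚ[X]) (hs : ∀ k ∈ s, 1 ≤ k) {b : ℕ} (hb : 2 ≤ b) (m : ℤ) (hm0 : m < 0) :
    ∫ y : ℝ, Rc s μ P y * li (hm m) y ^ b = 0 := by
  obtain ⟨β, rfl⟩ : ∃ β, b = β + 1 := ⟨b - 1, by omega⟩
  have hV : 0 < hm m := by
    unfold hm
    have h' : (m : ℝ) ≤ -1 := by exact_mod_cast (by omega : m ≤ -1)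
    linarith
  have h1 : ∀ y : ℝ, Rc s μ P y * li (hm m) y ^ (β + 1) = ∑ k ∈ s, ∑ j ∈ Finset.range (μ k),
      ((pfc s μ P k j : ℚ) : ℂ) * (li ((k : ℝ) - 1 / 2) y ^ (μ k - j) * li (hm m) y ^ (β + 1)) := by
    intro y
    unfold Rc
    rw [Finset.sum_mul]
    apply Finset.sum_congr rfl
    intro k _
    rw [Finset.sum_mul]
    apply Finset.sum_congr rfl
    intro j _
    ring
  simp_rw [h1]
  rw [integral_finsetSum]
  · apply Finset.sum_eq_zero
    intro k hk
    have hk1 : (0 : ℝ) < (k : ℝ) - 1 / 2 := by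
      have : (1 : ℝ) ≤ k := by exact_mod_cast hs k hk
      linarith
    rw [integral_finsetSum]
    · apply Finset.sum_eq_zero
      intro j hj
      rw [Finset.mem_range] at hj
      rw [integral_const_mul]
      obtain ⟨i, hi⟩ : ∃ i, μ k - j = i + 1 := ⟨μ k - j - 1, by omega⟩
      rw [hi, J_pos hk1 hV (i + β) i β rfl, mul_zero]
    · intro j hj
      rw [Finset.mem_range] at hj
      exact (li_prod_integrable hk1.ne' hV.ne' (by omega)).const_mul _
  · intro k hk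
    have hk1 : (0 : ℝ) < (k : ℝ) - 1 / 2 := by
      have : (1 : ℝ) ≤ k := by exact_mod_cast hs k hk
      linarith
    apply integrable_finsetSum
    intro j hj
    rw [Finset.mem_range] at hj
    exact (li_prod_integrable hk1.ne' hV.ne' (by omega)).const_mul _

/-- The sum of the series as an integral. -/
theorem F_integral (s : Finset ℕ) (μ : ℕ → ℕ) (P : ℚ[X]) (hdeg : P.natDegree + 2 ≤ (QQ s μ).natDegree)
    (hs : ∀ k ∈ s, 1 ≤ k) {b : ℕ} (hb : 2 ≤ b) (F : ℝ)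
    (hF : HasSum (fun t : ℕ => ((PowerSeries.coeff (b - 1) (RS s μ P (t : ℚ)) : ℚ) : ℝ)) F) :
    ∫ y : ℝ, Rc s μ P y * KK b y = -(2 * Real.pi) * (F : ℂ) := by
  have hd : P.degree < (QQ s μ).degree := Polynomial.degree_lt_degree (by omega)
  have h1 := hasSum_int s μ P hdeg hb
  have h2 : HasSum (fun t : ℕ => ((PowerSeries.coeff (b - 1) (RS s μ P (t : ℚ)) : ℚ) : ℂ)) (F : ℂ) := by
    have := (Complex.hasSum_ofReal).2 hF
    refine this.congr_fun ?_ 
    intro t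
    push_cast
    rfl
  have h3 := h2.mul_left (-(2 * (Real.pi : ℂ)))
  have h4 : HasSum (fun m : ℤ => ∫ y : ℝ, Rc s μ P y * li (hm m) y ^ b) (-(2 * (Real.pi : ℂ)) * (F : ℂ)) := by
    rw [← Function.Injective.hasSum_iff (g := fun t : ℕ => (t : ℤ)) (fun a b h => by simpa using h)]
    · refine h3.congr_fun ?_
      intro t
      exact (int_nat s μ P hd hs hb t)
    · intro m hm0
      apply int_neg s μ P hs hb m
      by_contra hcon
      apply hm0
      exact ⟨m.toNat, by simp; omega⟩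
  exact h1.unique h4

end CXaux

/-- upper bound by the integral of the absolute value -/
theorem F_le_integral2 (s : Finset ℕ) (μ : ℕ → ℕ) (P : ℚ[X]) (hdeg : P.natDegree + 2 ≤ (QQ s μ).natDegree)
    (hs : ∀ k ∈ s, 1 ≤ k) {b : ℕ} (hb : 2 ≤ b) (F : ℝ)
    (hF : HasSum (fun t : ℕ => ((PowerSeries.coeff (b - 1) (RS s μ P (t : ℚ)) : ℚ) : ℝ)) F)
    (B : ℝ) (hB : ∀ y : ℝ, ‖Rc s μ P y‖ * Real.exp (-(2 * Real.pi * |y|)) ≤ B * (1 + y ^ 2)⁻¹)
    (C : ℝ) (hC : 0 ≤ C) (hCK : ∀ y : ℝ, ‖KK b y‖ ≤ C * Real.exp (-(2 * Real.pi * |y|))) : |F| ≤ C * B := by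
  have h1 := CXaux.F_integral s μ P hdeg hs hb F hF
  have h2 : ‖∫ y : ℝ, Rc s μ P y * KK b y‖ ≤ ∫ y : ℝ, (C * B) * (1 + y ^ 2)⁻¹ := by
    apply norm_integral_le_of_norm_le (integrable_inv_one_add_sq.const_mul _)
    refine Filter.Eventually.of_forall (fun y => ?_)
    rw [norm_mul]
    calc _ ≤ ‖Rc s μ P y‖ * (C * Real.exp (-(2 * Real.pi * |y|))) := mul_le_mul_of_nonneg_left (hCK y) (norm_nonneg _)
      _ = C * (‖Rc s μ P y‖ * Real.exp (-(2 * Real.pi * |y|))) := by ring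
      _ ≤ C * (B * (1 + y ^ 2)⁻¹) := mul_le_mul_of_nonneg_left (hB y) hC
      _ = _ := by ring
  rw [h1, integral_const_mul, integral_univ_inv_one_add_sq, norm_mul, norm_neg, norm_mul, Complex.norm_ofNat,
    Complex.norm_real, Complex.norm_real, Real.norm_of_nonneg Real.pi_pos.le, Real.norm_eq_abs] at h2
  have hπ := Real.pi_pos
  have h3 : 2 * |F| * Real.pi ≤ (C * B) * Real.pi := by linarith
  have h4 := le_of_mul_le_mul_right h3 hπ
  have := abs_nonneg F
  linarith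

end

end Pool.Agent.ZF
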