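import Pool.Agent.H383.Z34.GDefs
import Pool.Agent.H337R2.Cx4

/-! STUBS of the archimedean part of the project `1, ζ(3), ζ(4)`. Never import this file in a finished module.
All these are adaptations of finished files `Pool/Agent/H336R2/HD/{G1a,G1b,G1,G2,G4}.lean`, `Pool/Agent/H337R2/Cx3.lean`. -/

open Polynomial Pool.Agent.H337R2 Filter Topology

namespace Pool.Agent.ZF

noncomputable section

/-! ### CX: the integral for the first derivative (`b = 2`) -/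

theorem Rc_le2 (s : Finset ℕ) (μ : ℕ → ℕ) (P : ℚ[X]) (hdeg : P.natDegree + 2 ≤ (QQ s μ).natDegree) :
    ∃ C : ℝ, 0 < C ∧ ∀ y : ℝ, ‖Rc s μ P y‖ ≤ C * (1 + y ^ 2)⁻¹ := by
  sorry

theorem F_le_integral2 (s : Finset ℕ) (μ : ℕ → ℕ) (P : ℚ[X]) (hdeg : P.natDegree + 2 ≤ (QQ s μ).natDegree)
    (hs : ∀ k ∈ s, 1 ≤ k) {b : ℕ} (hb : 2 ≤ b) (F : ℝ)
    (hF : HasSum (fun t : ℕ => ((PowerSeries.coeff (b - 1) (RS s μ P (t : ℚ)) : ℚ) : ℝ)) F)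
    (B : ℝ) (hB : ∀ y : ℝ, ‖Rc s μ P y‖ * Real.exp (-(2 * Real.pi * |y|)) ≤ B * (1 + y ^ 2)⁻¹)
    (C : ℝ) (hC : 0 ≤ C) (hCK : ∀ y : ℝ, ‖KK b y‖ ≤ C * Real.exp (-(2 * Real.pi * |y|))) : |F| ≤ C * B := by
  sorry

/-! ### G1: the size of `R` on the line `Re t = -1/2` -/

theorem G1_zero : ∃ (C : ℝ) (K : ℕ), 0 < C ∧ ∀ n : ℕ, 1 ≤ n →
    NG n 0 ≤ C * (n : ℝ) ^ K * Real.exp (n * PhiG) := by
  sorry

/-- comparison of `R` on the line with the product over all half integers -/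
theorem G1_ratio {n : ℕ} (hn : 1 ≤ n) (y : ℝ) (M : ℕ) (hM : 10 * n ≤ M) :
    (NG n y * Real.exp (-(2 * Real.pi * |y|))) ^ 2 *
      ((∏ m ∈ Finset.Ioc 0 (2 * n), (1 + y ^ 2 / ((m : ℝ) - 1 / 2) ^ 2)) *
       (∏ m ∈ Finset.Ioc (2 * n) (3 * n), (1 + y ^ 2 / ((m : ℝ) - 1 / 2) ^ 2) ^ 4) *
       (∏ m ∈ Finset.Ioc (3 * n) (10 * n), (1 + y ^ 2 / ((m : ℝ) - 1 / 2) ^ 2) ^ 6) *
       (∏ m ∈ Finset.Ioc (10 * n) M, (1 + y ^ 2 / ((m : ℝ) - 1 / 2) ^ 2) ^ 4)) ≤ NG n 0 ^ 2 := by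
  sorry

theorem G1_main : ∃ (C : ℝ) (K : ℕ), 0 < C ∧ ∀ N : ℕ, 1 ≤ N → ∀ n : ℕ, n = 24 * N + 1 → ∀ y : ℝ,
    NG n y * Real.exp (-(2 * Real.pi * |y|)) * (1 + y ^ 2) ^ 5 * FXpG ((y / n) ^ 2) ^ N ≤
      C * (n : ℝ) ^ K * Real.exp (n * PhiG) := by
  sorry

/-! ### G2: the node polynomials -/

theorem G2_qG {n : ℕ} (hn : 1 ≤ n) (y : ℝ) (h : ℚ) :
    ‖aeval (zl y) (qG n h)‖ = (n : ℝ) ^ 2 * |(h : ℝ) - (y / n) ^ 2| := by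
  sorry

/-! ### G4: the determinant (for an arbitrary functional bounded by the integral) -/

theorem G4_arch (C2 : ℝ) (hC2 : 0 < C2) (ε : ℝ) (hε : 0 < ε) : ∀ᶠ N : ℕ in atTop, ∀ n : ℕ, n = 24 * N + 1 →
    ∀ L : ℚ[X] →ₗ[ℚ] ℚ,
    (∀ Q : ℚ[X], Q.natDegree ≤ 8 * n - 2 → ∀ B : ℝ,
      (∀ y : ℝ, NG n y * ‖aeval (zl y) Q‖ * Real.exp (-(2 * Real.pi * |y|)) ≤ B * (1 + y ^ 2)⁻¹) →
      |((L Q : ℚ) : ℝ)| ≤ C2 * B) →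
    (Matrix.of fun i j : Fin (4 * n) => L (X ^ (i.1 + j.1))).det ≠ 0 →
    Real.log |(((Matrix.of fun i j : Fin (4 * n) => L (X ^ (i.1 + j.1))).det : ℚ) : ℝ)| ≤
      16 * (n : ℝ) ^ 2 * Real.log n + (4 * PhiG - 7513 / 576 * Real.log 2 + ε) * (n : ℝ) ^ 2 := by
  sorry

/-- true value `-57.9101` -/
theorem G5_num : 4 * PhiG - 7513 / 576 * Real.log 2 ≤ -5785 / 100 := by
  sorry

end

end Pool.Agent.ZF
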